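import Mathlib
import Pool.Agent.H51.Car.Core

/-!
Module P1b of MP_380f92_co: the carousel `R_{k+2}` through `x` stays positive when `x` is replaced
by its shifted twin.
-/

open Finset Filter Topology

namespace H51.Car.P1b

open Matrix

theorem det_skew_odd {n : ℕ} (hn : Odd n) (M : Matrix (Fin n) (Fin n) ℝ) (hM : Mᵀ = -M) :
    M.det = 0 := by
  have h := Matrix.det_transpose M
  rw [hM, Matrix.det_neg, Fintype.card_fin, hn.neg_one_pow] at h
  linarith

/-- Persistence of the kernel of a skew matrix of odd order. -/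
theorem persist {X : Type*} [TopologicalSpace X] {m : ℕ} (hm : Odd (m + 1))
    (M : X → Matrix (Fin (m + 1)) (Fin (m + 1)) ℝ)
    (p0 : X) (hc : ContinuousAt M p0) (hs : ∀ p, (M p)ᵀ = - M p)
    (w0 : Fin (m + 1) → ℝ) (hw0 : w0 ᵥ* M p0 = 0) (h0 : w0 0 = 1)
    (hns : ∀ v : Fin m → ℝ, (∀ j, ∑ i, v i * M p0 (Fin.succ i) (Fin.succ j) = 0) → v = 0) :
    ∃ w : X → Fin (m + 1) → ℝ, ContinuousAt w p0 ∧ w p0 = w0 ∧
      ∀ᶠ p in 𝓝 p0, w p ᵥ* M p = 0 ∧ w p 0 = 1 := by
  have hdet : ∀ p, (M p).det = 0 := fun p => det_skew_odd hm _ (hs p)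
  have hker : ∀ p, (adjugate (M p)) 0 ᵥ* M p = 0 := by
    intro p
    have h1 := Matrix.adjugate_mul (M p)
    rw [hdet, zero_smul] at h1
    funext j
    exact congrFun (congrFun h1 0) j
  have hcA : ContinuousAt (fun p => adjugate (M p)) p0 := by
    have : Continuous (fun A : Matrix (Fin (m + 1)) (Fin (m + 1)) ℝ => adjugate A) :=
      continuous_id.matrix_adjugate
    exact this.continuousAt.comp hc
  have hc00 : ContinuousAt (fun p => adjugate (M p) 0 0) p0 := by
    have : Continuous (fun A : Matrix (Fin (m + 1)) (Fin (m + 1)) ℝ => A 0 0) :=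
      continuous_id.matrix_elem 0 0
    exact this.continuousAt.comp hcA
  have hne : adjugate (M p0) 0 0 ≠ 0 := by
    rw [Matrix.adjugate_fin_succ_eq_det_submatrix]
    intro h
    have h1 : ((M p0).submatrix (Fin.succAbove 0) (Fin.succAbove 0)).det = 0 := by
      simpa using h
    obtain ⟨v, hv, hv2⟩ := Matrix.exists_vecMul_eq_zero_iff.mpr h1
    apply hv
    apply hns
    intro j
    have := congrFun hv2 j
    simpa [Matrix.vecMul, dotProduct, Fin.succAbove_zero] using this
  refine ⟨fun p => (adjugate (M p) 0 0)⁻¹ • adjugate (M p) 0, ?_, ?_, ?_⟩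
  · have hrow : ContinuousAt (fun p => adjugate (M p) 0) p0 := by
      have : Continuous (fun A : Matrix (Fin (m + 1)) (Fin (m + 1)) ℝ => A 0) :=
        continuous_pi fun j => continuous_id.matrix_elem 0 j
      exact this.continuousAt.comp hcA
    exact (hc00.inv₀ hne).smul hrow
  · have hz : ∀ i : Fin m, (adjugate (M p0) 0 - adjugate (M p0) 0 0 • w0) (Fin.succ i) = 0 := by
      have h1 : (adjugate (M p0) 0 - adjugate (M p0) 0 0 • w0) ᵥ* M p0 = 0 := by
        rw [Matrix.sub_vecMul, Matrix.smul_vecMul, hker, hw0, smul_zero, sub_zero]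
      have h2 := hns (fun i => (adjugate (M p0) 0 - adjugate (M p0) 0 0 • w0) (Fin.succ i)) (by
        intro j
        have h3 := congrFun h1 (Fin.succ j)
        rw [Matrix.vecMul, dotProduct, Fin.sum_univ_succ] at h3
        have h4 : (adjugate (M p0) 0 - adjugate (M p0) 0 0 • w0) 0 = 0 := by
          simp [h0]
        rw [h4, zero_mul, zero_add] at h3
        exact h3)
      exact fun i => congrFun h2 i
    funext i
    refine Fin.cases ?_ (fun i => ?_) i
    · simp [h0, hne]
    · have := hz i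
      simp only [Pi.sub_apply, Pi.smul_apply, smul_eq_mul] at this ⊢
      rw [inv_mul_eq_div, div_eq_iff hne]
      linarith
  · have h1 : ∀ᶠ p in 𝓝 p0, adjugate (M p) 0 0 ≠ 0 := hc00.eventually_ne hne
    filter_upwards [h1] with p hp
    refine ⟨?_, ?_⟩
    · rw [Matrix.smul_vecMul, hker, smul_zero]
    · simp [hp]

/-! ### The alternating matrix -/

/-- `altS` with natural number indices and real values. -/
noncomputable def altN (a b : ℕ) : ℝ :=
  if a < b then (-1) ^ (a + b) else if b < a then -(-1) ^ (a + b) else 0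

/-- The order sign. -/
noncomputable def ordN (a b : ℕ) : ℝ := if a < b then 1 else if b < a then -1 else 0

theorem altS_eq {r : ℕ} (a b : Fin r) : ((altS r a b : ℤ) : ℝ) = altN a.val b.val := by
  unfold altS altN
  by_cases h1 : a < b
  · have h1' : a.val < b.val := h1
    rw [if_pos h1, if_pos h1']
    push_cast
    rfl
  · have h1' : ¬ a.val < b.val := h1
    rw [if_neg h1, if_neg h1']
    by_cases h2 : b < a
    · have h2' : b.val < a.val := h2
      rw [if_pos h2, if_pos h2']
      push_cast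
      rfl
    · have h2' : ¬ b.val < a.val := h2
      rw [if_neg h2, if_neg h2']
      simp

theorem altN_succ (a b : ℕ) : altN (a + 1) (b + 1) = altN a b := by
  unfold altN
  have h : ((-1 : ℝ)) ^ (a + 1 + (b + 1)) = (-1) ^ (a + b) := by
    rw [show a + 1 + (b + 1) = (a + b) + 2 by ring, pow_add]
    norm_num
  rw [h]
  simp only [Nat.add_lt_add_iff_right]

theorem ordN_succ (a b : ℕ) : ordN (a + 1) (b + 1) = ordN a b := by
  unfold ordN
  simp only [Nat.add_lt_add_iff_right]

theorem altN_skew (a b : ℕ) : altN b a = - altN a b := by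
  unfold altN
  rw [add_comm b a]
  rcases lt_trichotomy a b with h | h | h
  · rw [if_neg (by omega), if_pos h, if_pos h]
  · subst h
    simp
  · rw [if_pos h, if_neg (by omega), if_pos h, neg_neg]

theorem ordN_skew (a b : ℕ) : ordN b a = - ordN a b := by
  unfold ordN
  rcases lt_trichotomy a b with h | h | h
  · rw [if_neg (by omega), if_pos h, if_pos h]
  · subst h
    simp
  · rw [if_pos h, if_neg (by omega), if_pos h, neg_neg]

theorem altN_zero_right (a : ℕ) : altN a 0 = (if a = 0 then 1 else 0) - (-1) ^ a := by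
  unfold altN
  rcases Nat.eq_zero_or_pos a with h | h
  · subst h
    simp
  · rw [if_neg (by omega), if_pos h, if_neg (by omega)]
    simp

theorem altN_step (i j : ℕ) :
    altN i (j + 1) + altN i j = (if i = j + 1 then 1 else 0) - (if i = j then 1 else 0) := by
  unfold altN
  have h1 : ((-1 : ℝ)) ^ (i + (j + 1)) = - (-1) ^ (i + j) := by
    rw [← add_assoc, pow_succ]
    ring
  rw [h1]
  rcases lt_trichotomy i j with h | h | h
  · rw [if_pos (by omega), if_pos h, if_neg (by omega), if_neg (by omega)]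
    ring
  · subst h
    rw [if_pos (by omega), if_neg (by omega), if_neg (by omega), if_neg (by omega), if_pos rfl]
    have : ((-1 : ℝ)) ^ (i + i) = 1 := by
      rw [← two_mul, pow_mul]
      norm_num
    rw [this]
    ring
  · rcases Nat.lt_or_ge (j + 1) i with h2 | h2
    · rw [if_neg (by omega), if_pos h2, if_neg (by omega), if_pos h, if_neg (by omega),
        if_neg (by omega)]
      ring
    · have h3 : i = j + 1 := by omega
      subst h3
      rw [if_neg (by omega), if_neg (by omega), if_neg (by omega), if_pos h, if_pos rfl,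
        if_neg (by omega)]
      have : ((-1 : ℝ)) ^ (j + 1 + j) = -1 := by
        rw [show j + 1 + j = 2 * j + 1 by ring, pow_succ, pow_mul]
        norm_num
      rw [this]
      ring

theorem sum_step (v : ℕ → ℝ) (n j : ℕ) (hj : j + 1 < n) :
    ∑ i ∈ range n, v i * altN i (j + 1) + ∑ i ∈ range n, v i * altN i j = v (j + 1) - v j := by
  rw [← Finset.sum_add_distrib]
  have : ∀ i ∈ range n, v i * altN i (j + 1) + v i * altN i j =
      (if i = j + 1 then v i else 0) - (if i = j then v i else 0) := by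
    intro i _
    rw [← mul_add, altN_step, mul_sub]
    simp only [mul_ite, mul_one, mul_zero]
  rw [Finset.sum_congr rfl this, Finset.sum_sub_distrib, Finset.sum_ite_eq', Finset.sum_ite_eq',
    if_pos (mem_range.mpr hj), if_pos (mem_range.mpr (by omega))]

theorem sum_zero (v : ℕ → ℝ) (n : ℕ) (hn : 0 < n) :
    ∑ i ∈ range n, v i * altN i 0 = v 0 - ∑ i ∈ range n, (-1) ^ i * v i := by
  have : ∀ i ∈ range n, v i * altN i 0 = (if i = 0 then v i else 0) - (-1) ^ i * v i := by
    intro i _
    rw [altN_zero_right, mul_sub]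
    simp only [mul_ite, mul_one, mul_zero]
    ring
  rw [Finset.sum_congr rfl this, Finset.sum_sub_distrib, Finset.sum_ite_eq',
    if_pos (mem_range.mpr hn)]

theorem alt_sum (m : ℕ) : ∑ i ∈ range (2 * m), ((-1 : ℝ)) ^ i = 0 := by
  induction m with
  | zero => simp
  | succ m ih =>
    rw [show 2 * (m + 1) = 2 * m + 1 + 1 by ring, sum_range_succ, sum_range_succ, ih, pow_succ,
      pow_mul]
    norm_num

theorem alt_sum_id (m : ℕ) : ∑ i ∈ range (2 * m), ((-1 : ℝ)) ^ i * (i : ℝ) = - m := by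
  induction m with
  | zero => simp
  | succ m ih =>
    rw [show 2 * (m + 1) = 2 * m + 1 + 1 by ring, sum_range_succ, sum_range_succ, ih, pow_succ,
      pow_mul]
    push_cast
    norm_num
    ring

/-- For an odd number of indices the constant vector is in the kernel. -/
theorem alt_ones (m : ℕ) (j : ℕ) (hj : j < 2 * m + 1) :
    ∑ i ∈ range (2 * m + 1), altN i j = 0 := by
  induction j with
  | zero =>
    have := sum_zero (fun _ => 1) (2 * m + 1) (by omega)
    simp only [one_mul, mul_one] at this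
    rw [this, sum_range_succ, alt_sum, pow_mul]
    norm_num
  | succ j ih =>
    have := sum_step (fun _ => 1) (2 * m + 1) j hj
    simp only [one_mul, sub_self] at this
    rw [ih (by omega), add_zero] at this
    exact this

/-- For an even number of indices the kernel is trivial. -/
theorem alt_nonsing (m : ℕ) (v : ℕ → ℝ)
    (hv : ∀ j < 2 * m, ∑ i ∈ range (2 * m), v i * altN i j = 0) : ∀ j < 2 * m, v j = 0 := by
  rcases Nat.eq_zero_or_pos m with hm | hm
  · subst hm
    intro j hj
    omega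
  have h1 : ∀ j, j < 2 * m → v j = v 0 := by
    intro j
    induction j with
    | zero => intro _; rfl
    | succ j ih =>
      intro hj
      have h2 := sum_step v (2 * m) j hj
      rw [hv _ hj, hv j (by omega)] at h2
      rw [← ih (by omega)]
      linarith
  have h2 := sum_zero v (2 * m) (by omega)
  rw [hv 0 (by omega)] at h2
  have h3 : ∑ i ∈ range (2 * m), ((-1 : ℝ)) ^ i * v i = 0 := by
    have : ∀ i ∈ range (2 * m), ((-1 : ℝ)) ^ i * v i = (-1) ^ i * v 0 := fun i hi => by
      rw [h1 i (mem_range.mp hi)]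
    rw [Finset.sum_congr rfl this, ← Finset.sum_mul, alt_sum, zero_mul]
  intro j hj
  rw [h1 j hj]
  linarith

/-- The potential of the alternating matrix. -/
theorem alt_psi (m : ℕ) (j : ℕ) (hj : j < 2 * m + 1) :
    ∑ i ∈ range (2 * m + 1), (i : ℝ) * altN i j = 1 / 2 - (-1) ^ j * ((2 * m + 1) / 2) := by
  induction j with
  | zero =>
    have := sum_zero (fun i => (i : ℝ)) (2 * m + 1) (by omega)
    rw [this, sum_range_succ, alt_sum_id, pow_mul]
    push_cast
    norm_num
    ring
  | succ j ih =>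
    have := sum_step (fun i => (i : ℝ)) (2 * m + 1) j hj
    rw [ih (by omega)] at this
    push_cast at this
    rw [pow_succ]
    linarith

/-! ### The perturbed matrices -/

/-- perturbed alternating matrix -/
noncomputable def MX {n : ℕ} (h : Fin n → Fin n → ℝ) (δ : ℝ) (a b : Fin n) : ℝ :=
  altN a b - δ * (h a b * ordN a b)

/-- indicator difference -/
noncomputable def tx {n : ℕ} (a b : Fin n) : ℝ :=
  (if b.val = 0 then 1 else 0) - (if a.val = 0 then 1 else 0)

/-- perturbed alternating matrix with a shifted row and column `0` -/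
noncomputable def MXi {n : ℕ} (h : Fin n → Fin n → ℝ) (δ θ : ℝ) (a b : Fin n) : ℝ :=
  MX h δ a b + θ * tx a b

theorem MX_skew {n : ℕ} (h : Fin n → Fin n → ℝ) (hs : ∀ a b, h b a = h a b) (δ : ℝ)
    (a b : Fin n) : MX h δ b a = - MX h δ a b := by
  unfold MX
  rw [altN_skew a b, ordN_skew a b, hs a b]
  ring

theorem tx_skew {n : ℕ} (a b : Fin n) : tx b a = - tx a b := by
  unfold tx
  ring

theorem MXi_skew {n : ℕ} (h : Fin n → Fin n → ℝ) (hs : ∀ a b, h b a = h a b) (δ θ : ℝ)
    (a b : Fin n) : MXi h δ θ b a = - MXi h δ θ a b := by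
  unfold MXi
  rw [MX_skew h hs, tx_skew]
  ring

theorem MX_cont {n : ℕ} (h : Fin n → Fin n → ℝ) :
    Continuous (fun δ : ℝ => (Matrix.of (MX h δ) : Matrix (Fin n) (Fin n) ℝ)) := by
  refine continuous_pi fun a => continuous_pi fun b => ?_
  simp only [Matrix.of_apply, MX]
  fun_prop

theorem MXi_cont {n : ℕ} (h : Fin n → Fin n → ℝ) :
    Continuous (fun p : ℝ × ℝ => (Matrix.of (MXi h p.1 p.2) : Matrix (Fin n) (Fin n) ℝ)) := by
  refine continuous_pi fun a => continuous_pi fun b => ?_
  simp only [Matrix.of_apply, MXi, MX]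
  fun_prop

theorem MX_zero {n : ℕ} (h : Fin n → Fin n → ℝ) (a b : Fin n) : MX h 0 a b = altN a b := by
  simp [MX]

/-- Trivial kernel of the alternating matrix on `Fin (2 m)`. -/
theorem alt_nonsing_fin (m : ℕ) (v : Fin (2 * m) → ℝ)
    (hv : ∀ j : Fin (2 * m), ∑ i, v i * altN i.val j.val = 0) : v = 0 := by
  let v' : ℕ → ℝ := fun i => if hi : i < 2 * m then v ⟨i, hi⟩ else 0
  have h1 := alt_nonsing m v' (by
    intro j hj
    have := hv ⟨j, hj⟩
    rw [Finset.sum_range]
    rw [← this]
    refine Finset.sum_congr rfl fun i _ => ?_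
    simp [v'])
  funext i
  have := h1 i.val i.isLt
  simpa [v'] using this

/-- the alternating sum over all indices, `Fin` version -/
theorem alt_ones_fin (m : ℕ) (j : Fin (2 * m + 1)) :
    ∑ i : Fin (2 * m + 1), altN i.val j.val = 0 := by
  have := alt_ones m j.val j.isLt
  rwa [Finset.sum_range] at this

/-- (b) for `x`: the kernel persists. Also with the limit. -/
theorem core_ones (m : ℕ) (h : Fin (2 * m + 1) → Fin (2 * m + 1) → ℝ) (hs : ∀ a b, h b a = h a b) :
    ∃ w : ℝ → Fin (2 * m + 1) → ℝ, ContinuousAt w 0 ∧ w 0 = (fun _ => 1) ∧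
      ∀ᶠ δ in 𝓝 (0 : ℝ), ∀ b, ∑ a, w δ a * MX h δ a b = 0 := by
  obtain ⟨w, hw1, hw2, hw3⟩ := persist (m := 2 * m) ⟨m, rfl⟩
    (fun δ : ℝ => (Matrix.of (MX h δ) : Matrix (Fin (2 * m + 1)) (Fin (2 * m + 1)) ℝ)) 0
    (MX_cont h).continuousAt
    (fun δ => by
      ext a b
      simp only [Matrix.transpose_apply, Matrix.of_apply, Matrix.neg_apply]
      exact MX_skew h hs δ a b)
    (fun _ => 1) (by
      funext b
      simp only [Matrix.vecMul, dotProduct, Matrix.of_apply, MX_zero, one_mul, Pi.zero_apply]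
      exact alt_ones_fin m b) rfl (by
      intro v hv
      apply alt_nonsing_fin
      intro j
      have := hv j
      simpa only [Matrix.of_apply, MX_zero, Fin.val_succ, altN_succ] using this)
  refine ⟨w, hw1, hw2, ?_⟩
  filter_upwards [hw3] with δ hδ b
  have := congrFun hδ.1 b
  simpa only [Matrix.vecMul, dotProduct, Matrix.of_apply, Pi.zero_apply] using this

theorem core1 (m : ℕ) (h : Fin (2 * m + 1) → Fin (2 * m + 1) → ℝ) (hs : ∀ a b, h b a = h a b) :
    ∀ᶠ δ in 𝓝 (0 : ℝ), ∃ w : Fin (2 * m + 1) → ℝ, (∀ a, 0 < w a) ∧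
      ∀ b, ∑ a, w a * MX h δ a b = 0 := by
  obtain ⟨w, hw1, hw2, hw3⟩ := core_ones m h hs
  have hpos : ∀ᶠ δ in 𝓝 (0 : ℝ), ∀ a, 0 < w δ a := by
    rw [Filter.eventually_all]
    intro a
    have hc : ContinuousAt (fun δ => w δ a) 0 := (continuous_apply a).continuousAt.comp hw1
    refine hc.eventually (lt_mem_nhds ?_)
    change 0 < w 0 a
    rw [hw2]
    exact one_pos
  filter_upwards [hpos, hw3] with δ h1 h2
  exact ⟨w δ, h1, h2⟩

/-! ### The shifted twin -/

/-- limit of the kernel -/
noncomputable def w0N (m : ℕ) (a : ℕ) : ℝ :=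
  if a = 0 then 1 else 2 * ((a : ℝ) - 1) / ((2 * m + 1 : ℕ) : ℝ)

theorem w0N_eq (m a : ℕ) : w0N m a = 2 / ((2 * m + 1 : ℕ) : ℝ) * (a : ℝ)
    - 2 / ((2 * m + 1 : ℕ) : ℝ) + (if a = 0 then 1 + 2 / ((2 * m + 1 : ℕ) : ℝ) else 0) := by
  unfold w0N
  split_ifs with h
  · subst h
    simp
  · ring

theorem sum_w0N_alt (m b : ℕ) (hb : b < 2 * m + 3) :
    ∑ a ∈ range (2 * m + 3), w0N m a * altN a b =
      2 / ((2 * m + 1 : ℕ) : ℝ) * (1 / 2 - (-1) ^ b * ((2 * m + 3) / 2)) +
        (1 + 2 / ((2 * m + 1 : ℕ) : ℝ)) * altN 0 b := by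
  have h1 := alt_psi (m + 1) b (by omega)
  have h2 := alt_ones (m + 1) b (by omega)
  rw [show 2 * (m + 1) + 1 = 2 * m + 3 by ring] at h1 h2
  have h3 : ∀ a ∈ range (2 * m + 3), w0N m a * altN a b =
      2 / ((2 * m + 1 : ℕ) : ℝ) * ((a : ℝ) * altN a b)
      - 2 / ((2 * m + 1 : ℕ) : ℝ) * altN a b +
      (if a = 0 then (1 + 2 / ((2 * m + 1 : ℕ) : ℝ)) * altN a b else 0) := by
    intro a _
    rw [w0N_eq]
    split_ifs <;> ring
  rw [Finset.sum_congr rfl h3, Finset.sum_add_distrib, Finset.sum_sub_distrib, ← Finset.mul_sum,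
    ← Finset.mul_sum, h1, h2, Finset.sum_ite_eq', if_pos (mem_range.mpr (by omega))]
  push_cast
  ring

theorem sum_w0N (m : ℕ) : ∑ a ∈ range (2 * m + 3), w0N m a = 2 * m + 3 := by
  have h3 : ∀ a ∈ range (2 * m + 3), w0N m a =
      2 / ((2 * m + 1 : ℕ) : ℝ) * (a : ℝ)
      - 2 / ((2 * m + 1 : ℕ) : ℝ) +
      (if a = 0 then (1 + 2 / ((2 * m + 1 : ℕ) : ℝ)) else 0) := fun a _ => w0N_eq m a
  have hg : ∑ a ∈ range (2 * m + 3), (a : ℝ) = (2 * m + 3) * (m + 1) := by
    have h := Finset.sum_range_id_mul_two (2 * m + 3)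
    rw [show 2 * m + 3 - 1 = 2 * m + 2 by omega] at h
    have h' := congrArg (Nat.cast : ℕ → ℝ) h
    push_cast at h'
    linarith
  have hK : ((2 * m + 1 : ℕ) : ℝ) ≠ 0 := by positivity
  rw [Finset.sum_congr rfl h3, Finset.sum_add_distrib, Finset.sum_sub_distrib, ← Finset.mul_sum,
    hg, Finset.sum_ite_eq', if_pos (mem_range.mpr (by omega)), Finset.sum_const, card_range,
    nsmul_eq_mul]
  push_cast at hK ⊢
  field_simp
  ring

theorem base_ker (m b : ℕ) (hb : b < 2 * m + 3) :
    ∑ a ∈ range (2 * m + 3), w0N m a * (altN a b + 1 / ((2 * m + 1 : ℕ) : ℝ) *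
      ((if b = 0 then 1 else 0) - (if a = 0 then 1 else 0))) = 0 := by
  have hK : ((2 * m + 1 : ℕ) : ℝ) ≠ 0 := by positivity
  have h3 : ∀ a ∈ range (2 * m + 3), w0N m a * (altN a b + 1 / ((2 * m + 1 : ℕ) : ℝ) *
      ((if b = 0 then 1 else 0) - (if a = 0 then 1 else 0))) =
      w0N m a * altN a b + (1 / ((2 * m + 1 : ℕ) : ℝ) * (if b = 0 then 1 else 0)) * w0N m a -
      (if a = 0 then 1 / ((2 * m + 1 : ℕ) : ℝ) * w0N m a else 0) := by
    intro a _
    split_ifs <;> ring
  rw [Finset.sum_congr rfl h3, Finset.sum_sub_distrib, Finset.sum_add_distrib, ← Finset.mul_sum,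
    sum_w0N, sum_w0N_alt m b hb, Finset.sum_ite_eq', if_pos (mem_range.mpr (by omega))]
  have hw : w0N m 0 = 1 := by simp [w0N]
  rw [hw]
  by_cases hb0 : b = 0
  · subst hb0
    have : altN 0 0 = 0 := by simp [altN]
    rw [this, if_pos rfl]
    push_cast at hK ⊢
    field_simp
    ring
  · have : altN 0 b = (-1) ^ b := by
      unfold altN
      rw [if_pos (by omega), zero_add]
    rw [this, if_neg hb0]
    push_cast at hK ⊢
    field_simp
    ring

/-- `a ↦ a + 2` -/
def s2 {n : ℕ} (a : Fin n) : Fin (n + 2) := a.succ.succ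

theorem MX_s2 {n : ℕ} (h : Fin (n + 2) → Fin (n + 2) → ℝ) (δ : ℝ) (a b : Fin n) :
    MX h δ (s2 a) (s2 b) = MX (fun a b => h (s2 a) (s2 b)) δ a b := by
  unfold MX s2
  simp only [Fin.val_succ, altN_succ, ordN_succ]

theorem MXi_s2 {n : ℕ} (h : Fin (n + 2) → Fin (n + 2) → ℝ) (δ θ : ℝ) (a b : Fin n) :
    MXi h δ θ (s2 a) (s2 b) = MX h δ (s2 a) (s2 b) := by
  simp [MXi, tx, s2]

theorem core2 (m : ℕ) (h : Fin (2 * m + 3) → Fin (2 * m + 3) → ℝ)
    (hs : ∀ a b, h b a = h a b) (hpos : ∀ a b, 0 ≤ h a b) (hz : ∀ a, h a 0 = 0) :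
    ∀ᶠ δ in 𝓝[>] (0 : ℝ), ∀ᶠ θ in 𝓝[<] (1 / ((2 * m + 1 : ℕ) : ℝ)),
      ∃ w : Fin (2 * m + 3) → ℝ, (∀ a, 0 < w a) ∧ ∀ b, ∑ a, w a * MXi h δ θ a b = 0 := by
  have hK : (0 : ℝ) < ((2 * m + 1 : ℕ) : ℝ) := by positivity
  set K : ℝ := ((2 * m + 1 : ℕ) : ℝ) with hKdef
  -- the joint kernel
  obtain ⟨w, hw1, hw2, hw3⟩ := persist (m := 2 * m + 2) ⟨m + 1, by ring⟩
    (fun p : ℝ × ℝ => (Matrix.of (MXi h p.1 p.2) : Matrix (Fin (2 * m + 3)) (Fin (2 * m + 3)) ℝ))
    ((0 : ℝ), 1 / K)
    (MXi_cont h).continuousAt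
    (fun p => by
      ext a b
      simp only [Matrix.transpose_apply, Matrix.of_apply, Matrix.neg_apply]
      exact MXi_skew h hs _ _ a b)
    (fun a => w0N m a.val) (by
      funext b
      have := base_ker m b.val b.isLt
      rw [Finset.sum_range] at this
      simp only [Matrix.vecMul, dotProduct, Matrix.of_apply, MXi, MX_zero, tx, Pi.zero_apply]
      exact this) (by simp [w0N]) (by
      intro v hv
      apply alt_nonsing_fin (m + 1)
      intro j
      have := hv j
      simp only [Matrix.of_apply, MXi, MX_zero, Fin.val_succ, altN_succ, tx, Nat.succ_ne_zero,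
        if_false, sub_self, mul_zero, add_zero] at this
      exact this)
  -- the kernel on the indices `≥ 2`
  obtain ⟨w', hv1, hv2, hv3⟩ := core_ones m (fun a b => h (s2 a) (s2 b)) (fun a b => hs _ _)
  have hc' : ∀ a, ContinuousAt (fun δ => w' δ a) 0 := fun a =>
    (continuous_apply a).continuousAt.comp hv1
  have A2 : ∀ᶠ δ in 𝓝 (0 : ℝ), ∀ a, 0 < w' δ a := by
    rw [Filter.eventually_all]
    intro a
    refine (hc' a).eventually (lt_mem_nhds ?_)
    change 0 < w' 0 a
    rw [hv2]
    exact one_pos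
  have A3 : ∀ᶠ δ in 𝓝 (0 : ℝ), ∀ a b : Fin (2 * m + 1), a < b →
      0 < w' δ a * (b.val : ℝ) - w' δ b * (a.val : ℝ) := by
    rw [Filter.eventually_all]
    intro a
    rw [Filter.eventually_all]
    intro b
    rw [Filter.eventually_imp_distrib_left]
    intro hab
    have hc : ContinuousAt (fun δ => w' δ a * (b.val : ℝ) - w' δ b * (a.val : ℝ)) 0 :=
      ((hc' a).mul continuousAt_const).sub ((hc' b).mul continuousAt_const)
    refine hc.eventually (lt_mem_nhds ?_)
    change 0 < w' 0 a * (b.val : ℝ) - w' 0 b * (a.val : ℝ)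
    rw [hv2]
    have : (a.val : ℝ) < b.val := by exact_mod_cast hab
    simp only [one_mul]
    linarith
  have A4 : ∀ᶠ δ in 𝓝 (0 : ℝ), 0 < ∑ a, w' δ a * MX h δ (s2 a) 1 := by
    have hc : ContinuousAt (fun δ => ∑ a, w' δ a * MX h δ (s2 a) 1) 0 := by
      refine tendsto_finsetSum _ fun a _ => ?_
      refine (hc' a).mul ?_
      have : Continuous (fun δ : ℝ => MX h δ (s2 a) 1) := by
        unfold MX
        fun_prop
      exact this.continuousAt
    refine hc.eventually (lt_mem_nhds ?_)
    change 0 < ∑ a, w' 0 a * MX h 0 (s2 a) 1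
    rw [hv2]
    simp only [MX_zero, one_mul]
    have h1 : ∀ a : Fin (2 * m + 1), altN (s2 a).val (1 : Fin (2 * m + 3)).val = (-1) ^ a.val := by
      intro a
      have : (s2 a).val = a.val + 1 + 1 := rfl
      rw [this, show (1 : Fin (2 * m + 3)).val = 0 + 1 from rfl, altN_succ, altN_zero_right,
        if_neg (by omega), pow_succ]
      ring
    rw [Finset.sum_congr rfl (fun a _ => h1 a), ← Finset.sum_range (fun a => ((-1 : ℝ)) ^ a),
      sum_range_succ, alt_sum, pow_mul]
    norm_num
  -- the joint conditions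
  have B : ∀ᶠ p in 𝓝 ((0 : ℝ), 1 / K), (w p ᵥ* Matrix.of (MXi h p.1 p.2) = 0 ∧ w p 0 = 1) ∧
      ∀ a : Fin (2 * m + 1), 0 < w p (s2 a) := by
    refine hw3.and ?_
    rw [Filter.eventually_all]
    intro a
    have hc : ContinuousAt (fun p => w p (s2 a)) ((0 : ℝ), 1 / K) :=
      (continuous_apply (s2 a)).continuousAt.comp hw1
    refine hc.eventually (lt_mem_nhds ?_)
    change 0 < w (0, 1 / K) (s2 a)
    rw [hw2]
    have h1 : (s2 a).val = a.val + 2 := rfl
    simp only [w0N, h1]
    rw [if_neg (by omega)]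
    push_cast
    have : (0 : ℝ) ≤ a.val := Nat.cast_nonneg _
    apply div_pos _ (by rw [hKdef] at hK; push_cast at hK; exact hK)
    linarith
  rw [nhds_prod_eq] at B
  have B' := (B.filter_mono (Filter.prod_mono (nhdsWithin_le_nhds (s := Set.Ioi (0 : ℝ)))
    (nhdsWithin_le_nhds (s := Set.Iio (1 / K))))).curry
  filter_upwards [B', nhdsWithin_le_nhds hv3, nhdsWithin_le_nhds A2, nhdsWithin_le_nhds A3,
    nhdsWithin_le_nhds A4, self_mem_nhdsWithin] with δ hB h1 h2 h3 h4 hδ
  filter_upwards [hB, self_mem_nhdsWithin] with θ hB2 hθ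
  obtain ⟨⟨hB3, hB4⟩, hB5⟩ := hB2
  have hker : ∀ b, ∑ a, w (δ, θ) a * MXi h δ θ a b = 0 := by
    intro b
    have := congrFun hB3 b
    simpa only [Matrix.vecMul, dotProduct, Matrix.of_apply, Pi.zero_apply] using this
  have hk' : ∀ b, ∑ a, w' δ a * MX h δ (s2 a) (s2 b) = 0 := by
    intro b
    simpa only [MX_s2] using h1 b
  set f1 : ℝ := ∑ a, w' δ a * MX h δ (s2 a) 1 with hf1
  set fx : ℝ := ∑ a, w' δ a * MXi h δ θ (s2 a) 0 with hfx
  -- relation between the coordinates
  have hrel : w (δ, θ) 1 * f1 + fx = 0 := by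
    have e1 : ∑ b, w' δ b * (∑ a, w (δ, θ) a * MXi h δ θ a (s2 b)) = 0 :=
      Finset.sum_eq_zero fun b _ => by rw [hker, mul_zero]
    have e2 : ∀ b : Fin (2 * m + 1), ∑ a, w (δ, θ) a * MXi h δ θ a (s2 b) =
        w (δ, θ) 0 * MXi h δ θ 0 (s2 b) + (w (δ, θ) 1 * MXi h δ θ 1 (s2 b) +
          ∑ a : Fin (2 * m + 1), w (δ, θ) (s2 a) * MXi h δ θ (s2 a) (s2 b)) := by
      intro b
      rw [Fin.sum_univ_succ, Fin.sum_univ_succ]
      rfl
    have e3 : ∑ b, w' δ b * ∑ a : Fin (2 * m + 1), w (δ, θ) (s2 a) * MXi h δ θ (s2 a) (s2 b)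
        = 0 := by
      have : ∀ b ∈ (Finset.univ : Finset (Fin (2 * m + 1))),
          w' δ b * ∑ a : Fin (2 * m + 1), w (δ, θ) (s2 a) * MXi h δ θ (s2 a) (s2 b) =
          ∑ a : Fin (2 * m + 1), - w (δ, θ) (s2 a) * (w' δ b * MX h δ (s2 b) (s2 a)) := by
        intro b _
        rw [Finset.mul_sum]
        refine Finset.sum_congr rfl fun a _ => ?_
        rw [MXi_s2, MX_skew h hs δ (s2 b) (s2 a)]
        ring
      rw [Finset.sum_congr rfl this, Finset.sum_comm]
      refine Finset.sum_eq_zero fun a _ => ?_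
      rw [← Finset.mul_sum, hk', mul_zero]
    have e4 : ∑ b, w' δ b * MXi h δ θ 0 (s2 b) = - fx := by
      rw [hfx, ← Finset.sum_neg_distrib]
      refine Finset.sum_congr rfl fun b _ => ?_
      rw [MXi_skew h hs δ θ (s2 b) 0]
      ring
    have e5 : ∑ b, w' δ b * MXi h δ θ 1 (s2 b) = - f1 := by
      rw [hf1, ← Finset.sum_neg_distrib]
      refine Finset.sum_congr rfl fun b _ => ?_
      have : MXi h δ θ (s2 b) 1 = MX h δ (s2 b) 1 := by
        simp [MXi, tx, s2]
      rw [MXi_skew h hs δ θ (s2 b) 1, this]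
      ring
    have e6 : ∑ b, w' δ b * (∑ a, w (δ, θ) a * MXi h δ θ a (s2 b)) =
        w (δ, θ) 0 * (∑ b, w' δ b * MXi h δ θ 0 (s2 b)) +
        w (δ, θ) 1 * (∑ b, w' δ b * MXi h δ θ 1 (s2 b)) +
        ∑ b, w' δ b * ∑ a : Fin (2 * m + 1), w (δ, θ) (s2 a) * MXi h δ θ (s2 a) (s2 b) := by
      rw [Finset.mul_sum, Finset.mul_sum, ← Finset.sum_add_distrib, ← Finset.sum_add_distrib]
      refine Finset.sum_congr rfl fun b _ => ?_
      rw [e2]
      ring
    rw [e6, e3, e4, e5, hB4] at e1
    linarith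
  -- the sign of `fx`
  have hneg : fx < 0 := by
    set E : ℝ := ∑ b : Fin (2 * m + 1), ∑ a : Fin (2 * m + 1),
      (b.val : ℝ) * (w' δ a * (h (s2 a) (s2 b) * ordN a b)) with hE
    have hE0 : 0 ≤ E := by
      have hE2 : E = ∑ b : Fin (2 * m + 1), ∑ a : Fin (2 * m + 1),
          (a.val : ℝ) * (w' δ b * (h (s2 a) (s2 b) * ordN b a)) := by
        rw [hE, Finset.sum_comm]
        refine Finset.sum_congr rfl fun a _ => Finset.sum_congr rfl fun b _ => ?_
        rw [hs (s2 a) (s2 b)]
      have hE3 : 0 ≤ E + E := by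
        nth_rewrite 2 [hE2]
        rw [hE, ← Finset.sum_add_distrib]
        refine Finset.sum_nonneg fun b _ => ?_
        rw [← Finset.sum_add_distrib]
        refine Finset.sum_nonneg fun a _ => ?_
        have hh := hpos (s2 a) (s2 b)
        rcases lt_trichotomy a b with hab | hab | hab
        · have h5 := h3 a b hab
          have h6 : ordN a.val b.val = 1 := by
            unfold ordN
            rw [if_pos (by exact hab)]
          have h7 : ordN b.val a.val = -1 := by rw [ordN_skew a.val b.val, h6]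
          rw [h6, h7]
          have := mul_nonneg hh h5.le
          nlinarith
        · subst hab
          have h6 : ordN a.val a.val = 0 := by simp [ordN]
          rw [h6]
          simp
        · have h5 := h3 b a hab
          have h6 : ordN b.val a.val = 1 := by
            unfold ordN
            rw [if_pos (by exact hab)]
          have h7 : ordN a.val b.val = -1 := by rw [ordN_skew b.val a.val, h6]
          rw [h6, h7]
          have := mul_nonneg hh h5.le
          nlinarith
      linarith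
    have hpot : ∀ a : Fin (2 * m + 1), ((-1 : ℝ)) ^ a.val =
        2 / K * (∑ b : Fin (2 * m + 1), altN a b * (b.val : ℝ)) + 1 / K := by
      intro a
      have h5 := alt_psi m a.val a.isLt
      rw [Finset.sum_range] at h5
      have h6 : ∑ b : Fin (2 * m + 1), altN a b * (b.val : ℝ) =
          - ∑ b : Fin (2 * m + 1), (b.val : ℝ) * altN b a := by
        rw [← Finset.sum_neg_distrib]
        refine Finset.sum_congr rfl fun b _ => ?_
        rw [altN_skew b.val a.val]
        ring
      rw [h6, h5]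
      have h7 : (2 * (m : ℝ) + 1) = K := by rw [hKdef]; push_cast; ring
      rw [h7]
      field_simp
      ring
    have hsw : ∑ a, w' δ a * ((-1 : ℝ)) ^ a.val = 1 / K * (∑ a, w' δ a) + 2 / K * (δ * E) := by
      have h5 : ∑ a, w' δ a * ((-1 : ℝ)) ^ a.val = 1 / K * (∑ a, w' δ a) +
          2 / K * ∑ a : Fin (2 * m + 1), ∑ b : Fin (2 * m + 1),
            (b.val : ℝ) * (w' δ a * altN a b) := by
        rw [Finset.mul_sum, Finset.mul_sum, ← Finset.sum_add_distrib]
        refine Finset.sum_congr rfl fun a _ => ?_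
        rw [hpot a]
        have : ∑ b : Fin (2 * m + 1), (b.val : ℝ) * (w' δ a * altN a b) =
            w' δ a * ∑ b : Fin (2 * m + 1), altN a b * (b.val : ℝ) := by
          rw [Finset.mul_sum]
          refine Finset.sum_congr rfl fun b _ => by ring
        rw [this]
        ring
      rw [h5]
      congr 2
      rw [Finset.sum_comm, hE, Finset.mul_sum]
      refine Finset.sum_congr rfl fun b _ => ?_
      have h6 := hk' b
      simp only [MX, s2, Fin.val_succ, altN_succ, ordN_succ] at h6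
      rw [Finset.mul_sum, ← Finset.mul_sum]
      have h7 : ∑ a, w' δ a * altN a.val b.val =
          ∑ a, w' δ a * (δ * (h (s2 a) (s2 b) * ordN a.val b.val)) := by
        have h8 : ∑ a, (w' δ a * altN a.val b.val -
          w' δ a * (δ * (h (s2 a) (s2 b) * ordN a.val b.val))) = 0 := by
          rw [← h6]
          refine Finset.sum_congr rfl fun a _ => ?_
          simp only [s2]
          ring
        rw [Finset.sum_sub_distrib] at h8
        linarith
      rw [h7, Finset.mul_sum]
      refine Finset.sum_congr rfl fun a _ => ?_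
      ring
    have hfx2 : fx = (θ - 1 / K) * (∑ a, w' δ a) - 2 / K * (δ * E) := by
      have h5 : fx = θ * (∑ a, w' δ a) - ∑ a, w' δ a * ((-1 : ℝ)) ^ a.val := by
        rw [hfx, Finset.mul_sum, ← Finset.sum_sub_distrib]
        refine Finset.sum_congr rfl fun a _ => ?_
        have h6 : altN (s2 a).val (0 : Fin (2 * m + 3)).val = - (-1) ^ a.val := by
          have : (s2 a).val = a.val + 1 + 1 := rfl
          rw [this, show (0 : Fin (2 * m + 3)).val = 0 from rfl, altN_zero_right,
            if_neg (by omega), pow_succ, pow_succ]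
          ring
        have h7 : tx (s2 a) (0 : Fin (2 * m + 3)) = 1 := by
          simp [tx, s2]
        unfold MXi MX
        rw [h6, h7, hz]
        ring
      rw [h5, hsw]
      ring
    have hsum : 0 < ∑ a, w' δ a := Finset.sum_pos (fun a _ => h2 a) Finset.univ_nonempty
    have hθ' : θ - 1 / K < 0 := by
      have : θ < 1 / K := hθ
      linarith
    have hδ' : 0 < δ := hδ
    have h5 : (θ - 1 / K) * (∑ a, w' δ a) < 0 := mul_neg_of_neg_of_pos hθ' hsum
    have h6 : 0 ≤ 2 / K * (δ * E) := by positivity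
    rw [hfx2]
    linarith
  have hw1pos : 0 < w (δ, θ) 1 := by
    by_contra hcon
    rw [not_lt] at hcon
    have := mul_nonpos_of_nonpos_of_nonneg hcon h4.le
    linarith
  refine ⟨w (δ, θ), ?_, hker⟩
  intro a
  refine Fin.cases ?_ (fun a => ?_) a
  · rw [hB4]
    exact one_pos
  · refine Fin.cases ?_ (fun a => ?_) a
    · exact hw1pos
    · exact hB5 a

/-! ### Transport -/

/-- Rotation of the alternating order. -/
theorem altS_rot (m : ℕ) (a b c : Fin (2 * m + 3)) :
    altS (2 * m + 3) (a + c) (b + c) = altS (2 * m + 3) a b := by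
  have ha := a.isLt
  have hb := b.isLt
  have hc := c.isLt
  have hva : (a + c).val = if a.val + c.val < 2 * m + 3 then a.val + c.val
      else a.val + c.val - (2 * m + 3) := by
    rw [Fin.val_add]
    split_ifs with h
    · exact Nat.mod_eq_of_lt h
    · rw [Nat.mod_eq_sub_mod (by omega), Nat.mod_eq_of_lt (by omega)]
  have hvb : (b + c).val = if b.val + c.val < 2 * m + 3 then b.val + c.val
      else b.val + c.val - (2 * m + 3) := by
    rw [Fin.val_add]
    split_ifs with h
    · exact Nat.mod_eq_of_lt h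
    · rw [Nat.mod_eq_sub_mod (by omega), Nat.mod_eq_of_lt (by omega)]
  have hpar : ∀ u v : ℕ, u % 2 = v % 2 → ((-1 : ℤ)) ^ u = (-1) ^ v := by
    intro u v huv
    rw [neg_one_pow_eq_pow_mod_two, huv, ← neg_one_pow_eq_pow_mod_two]
  have hpar' : ∀ u v : ℕ, u % 2 ≠ v % 2 → ((-1 : ℤ)) ^ u = - (-1) ^ v := by
    intro u v huv
    have h1 := hpar u (v + 1) (by omega)
    rw [h1, pow_succ]
    ring
  unfold altS
  simp only [Fin.lt_def, hva, hvb]
  by_cases h1 : a.val + c.val < 2 * m + 3 <;> by_cases h2 : b.val + c.val < 2 * m + 3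
  · simp only [h1, h2, if_true]
    have e1 : (a.val + c.val < b.val + c.val) ↔ a.val < b.val := by omega
    have e2 : (b.val + c.val < a.val + c.val) ↔ b.val < a.val := by omega
    simp only [e1, e2]
    rw [hpar (a.val + c.val + (b.val + c.val)) (a.val + b.val) (by omega)]
  · simp only [h1, h2, if_true, if_false]
    have e1 : ¬ (a.val + c.val < b.val + c.val - (2 * m + 3)) := by omega
    have e2 : b.val + c.val - (2 * m + 3) < a.val + c.val := by omega
    have e3 : a.val < b.val := by omega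
    rw [if_neg e1, if_pos e2, if_pos e3,
      hpar' (a.val + c.val + (b.val + c.val - (2 * m + 3))) (a.val + b.val) (by omega)]
    ring
  · simp only [h1, h2, if_true, if_false]
    have e1 : a.val + c.val - (2 * m + 3) < b.val + c.val := by omega
    have e2 : ¬ (a.val < b.val) := by omega
    have e3 : b.val < a.val := by omega
    rw [if_pos e1, if_neg e2, if_pos e3,
      hpar' (a.val + c.val - (2 * m + 3) + (b.val + c.val)) (a.val + b.val) (by omega)]
  · simp only [h1, h2, if_false]
    have e1 : (a.val + c.val - (2 * m + 3) < b.val + c.val - (2 * m + 3)) ↔ a.val < b.val := by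
      omega
    have e2 : (b.val + c.val - (2 * m + 3) < a.val + c.val - (2 * m + 3)) ↔ b.val < a.val := by
      omega
    simp only [e1, e2]
    rw [hpar (a.val + c.val - (2 * m + 3) + (b.val + c.val - (2 * m + 3))) (a.val + b.val)
      (by omega)]

/-- The product of three signs. -/
theorem alt_prod (a b : ℕ) (ha : a ≠ 0) (hb : b ≠ 0) :
    altN 0 a * altN 0 b * altN a b = ordN a b := by
  have h0 : ∀ c : ℕ, c ≠ 0 → altN 0 c = (-1) ^ c := by
    intro c hc
    unfold altN
    rw [if_pos (by omega), zero_add]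
  rw [h0 a ha, h0 b hb]
  have h1 : ((-1 : ℝ)) ^ a * (-1) ^ b * (-1) ^ (a + b) = 1 := by
    rw [← pow_add, ← mul_pow]
    norm_num
  unfold altN ordN
  split_ifs
  · exact h1
  · rw [mul_neg, h1]
  · ring

theorem pos_of_enum {κ : Type*} [DecidableEq κ] {n : ℕ} (M : κ → κ → ℝ)
    (e : Fin (n + 1) → κ) (he : Function.Injective e) (w : Fin (n + 1) → ℝ) (hw : ∀ a, 0 < w a)
    (hk : ∀ b, ∑ a, w a * M (e a) (e b) = 0) : Pos M (univ.image e) := by
  refine ⟨⟨e 0, Finset.mem_image_of_mem _ (Finset.mem_univ _)⟩,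
    fun i => w (Function.invFun e i), fun i _ => hw _, ?_⟩
  intro j hj
  obtain ⟨b, -, rfl⟩ := Finset.mem_image.mp hj
  rw [Finset.sum_image (fun a _ b _ hab => he hab)]
  rw [← hk b]
  refine Finset.sum_congr rfl fun a _ => ?_
  change w (Function.invFun e (e a)) * M (e a) (e b) = w a * M (e a) (e b)
  rw [Function.leftInverse_invFun he a]

/-- weights from marks -/
noncomputable def hl {n : ℕ} (l : Fin (n + 1) → Fin 3) (a b : Fin (n + 1)) : ℝ :=
  if a = 0 ∨ b = 0 then 0 else hmk (l a) (l b)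

theorem hmk_symm (a b : Fin 3) : hmk b a = hmk a b := by
  unfold hmk
  have : ((b = 1 ∧ a = 2) ∨ (b = 2 ∧ a = 1)) ↔ ((a = 1 ∧ b = 2) ∨ (a = 2 ∧ b = 1)) := by tauto
  simp only [this]

theorem hl_symm {n : ℕ} (l : Fin (n + 1) → Fin 3) (a b : Fin (n + 1)) : hl l b a = hl l a b := by
  unfold hl
  have : (b = 0 ∨ a = 0) ↔ (a = 0 ∨ b = 0) := by tauto
  simp only [this, hmk_symm]

theorem hl_nonneg {n : ℕ} (l : Fin (n + 1) → Fin 3) (a b : Fin (n + 1)) : 0 ≤ hl l a b := by
  unfold hl hmk
  split_ifs <;> norm_num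

theorem hl_zero {n : ℕ} (l : Fin (n + 1) → Fin 3) (a : Fin (n + 1)) : hl l a 0 = 0 := by
  simp [hl]

end H51.Car.P1b

namespace H51.Car

open P1b

/-- P1b. -/
theorem ev_altx {κ : Type*} [Fintype κ] [DecidableEq κ] (k : ℕ) (hk : 5 ≤ k) (hodd : Odd k)
    (x ξ : κ) (hne : x ≠ ξ) :
    Ev k (fun δ θ => ∀ B : κ → κ → ℤ, IsT B → Twin x ξ B → ∀ l : κ → Fin 3,
      ∀ S : Finset κ, x ∉ S → ξ ∉ S → AltOn (k + 2) B (insert x S) →
        Pos (DM x ξ B l δ θ) (insert x S) ∧ Pos (DM x ξ B l δ θ) (insert ξ S)) := by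
  obtain ⟨m, rfl⟩ := hodd
  have C1 : ∀ᶠ δ in 𝓝[>] (0 : ℝ), ∀ l : Fin (2 * m + 3) → Fin 3,
      ∃ w : Fin (2 * m + 3) → ℝ, (∀ a, 0 < w a) ∧ ∀ b, ∑ a, w a * MX (hl l) δ a b = 0 := by
    rw [Filter.eventually_all]
    intro l
    exact nhdsWithin_le_nhds (core1 (m + 1) (hl (n := 2 * m + 2) l) (hl_symm l))
  have C2 : ∀ᶠ δ in 𝓝[>] (0 : ℝ), ∀ l : Fin (2 * m + 3) → Fin 3,
      ∀ᶠ θ in 𝓝[<] (1 / ((2 * m + 1 : ℕ) : ℝ)),
      ∃ w : Fin (2 * m + 3) → ℝ, (∀ a, 0 < w a) ∧ ∀ b, ∑ a, w a * MXi (hl l) δ θ a b = 0 := by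
    rw [Filter.eventually_all]
    intro l
    exact core2 m (hl l) (hl_symm l) (hl_nonneg l) (hl_zero l)
  unfold Ev
  filter_upwards [C1, C2] with δ h1 h2
  have h2' : ∀ᶠ θ in 𝓝[<] (1 / ((2 * m + 1 : ℕ) : ℝ)), ∀ l : Fin (2 * m + 3) → Fin 3,
      ∃ w : Fin (2 * m + 3) → ℝ, (∀ a, 0 < w a) ∧ ∀ b, ∑ a, w a * MXi (hl l) δ θ a b = 0 := by
    rw [Filter.eventually_all]
    exact h2
  filter_upwards [h2'] with θ h3
  intro B hB hT l S hx hξ hA
  -- an enumeration starting at `x`
  obtain ⟨e, ⟨he0, hx0, heB, hei⟩⟩ : ∃ e : Fin (2 * m + 3) → κ, Function.Injective e ∧ e 0 = x ∧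
      (∀ a b, B (e a) (e b) = altS (2 * m + 3) a b) ∧ Finset.univ.image e = insert x S := by
    obtain ⟨e, ⟨he1, he2⟩, he3⟩ := hA
    have hxm : x ∈ Finset.univ.image e := by
      rw [he3]
      exact Finset.mem_insert_self _ _
    obtain ⟨c, -, hc⟩ := Finset.mem_image.mp hxm
    refine ⟨fun a => e (a + c), ?_, ?_, ?_, ?_⟩
    · intro a b hab
      exact add_right_cancel (he1 hab)
    · change e (0 + c) = x
      rw [zero_add, hc]
    · intro a b
      exact (he2 _ _).trans (altS_rot m a b c)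
    · rw [← he3]
      ext i
      simp only [Finset.mem_image, Finset.mem_univ, true_and]
      constructor
      · rintro ⟨a, ha⟩
        exact ⟨_, ha⟩
      · rintro ⟨a, ha⟩
        exact ⟨a - c, by rw [← ha]; congr 1; exact sub_add_cancel a c⟩
  have hnx : ∀ a, a ≠ 0 → e a ≠ x := fun a ha h => ha (he0 (h.trans hx0.symm))
  have hmem : ∀ a, e a ∈ insert x S := fun a => by
    rw [← hei]
    exact Finset.mem_image_of_mem _ (Finset.mem_univ _)
  have hnξ : ∀ a, e a ≠ ξ := fun a h => by
    have := hmem a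
    rw [h, Finset.mem_insert] at this
    rcases this with h' | h'
    · exact hne h'.symm
    · exact hξ h'
  have hin : ∀ a b, a ≠ 0 → b ≠ 0 → DM x ξ B l δ θ (e a) (e b) = MX (hl (l ∘ e)) δ a b := by
    intro a b ha hb
    unfold DM
    rw [if_neg (by simp [hnx a ha, hnx b hb]), if_neg (by simp [hnξ a]), if_neg (hnξ b),
      if_neg (hnξ a)]
    have e1 : B x (e a) = altS (2 * m + 3) 0 a := by rw [← heB 0 a, hx0]
    have e2 : B x (e b) = altS (2 * m + 3) 0 b := by rw [← heB 0 b, hx0]
    rw [heB, e1, e2, altS_eq, altS_eq, altS_eq]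
    have e3 := alt_prod a.val b.val (fun h => ha (Fin.ext h)) (fun h => hb (Fin.ext h))
    have e4 : ((0 : Fin (2 * m + 3)).val) = 0 := rfl
    rw [e4, e3]
    unfold MX hl
    rw [if_neg (by simp [ha, hb])]
    simp only [Function.comp]
    ring
  constructor
  · rw [← hei]
    obtain ⟨w, hw1, hw2⟩ := h1 (l ∘ e)
    refine pos_of_enum _ e he0 w hw1 fun b => ?_
    rw [← hw2 b]
    refine Finset.sum_congr rfl fun a _ => ?_
    congr 1
    by_cases hab : a = 0 ∨ b = 0
    · have e1 : e a = x ∨ e b = x := by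
        rcases hab with h | h
        · left; rw [h, hx0]
        · right; rw [h, hx0]
      unfold DM
      rw [if_pos e1, heB, altS_eq]
      unfold MX hl
      rw [if_pos hab]
      ring
    · rw [not_or] at hab
      exact hin a b hab.1 hab.2
  · have hSi : Finset.univ.image (fun a : Fin (2 * m + 3) => if a = 0 then ξ else e a) =
        insert ξ S := by
      ext i
      simp only [Finset.mem_image, Finset.mem_univ, true_and, Finset.mem_insert]
      constructor
      · rintro ⟨a, ha⟩
        by_cases h : a = 0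
        · rw [if_pos h] at ha
          exact Or.inl ha.symm
        · rw [if_neg h] at ha
          right
          have := hmem a
          rw [Finset.mem_insert] at this
          rcases this with h' | h'
          · exact absurd h' (hnx a h)
          · rwa [← ha]
      · rintro (h | h)
        · exact ⟨0, by rw [if_pos rfl, h]⟩
        · have h' : i ∈ Finset.univ.image e := by
            rw [hei]
            exact Finset.mem_insert_of_mem h
          obtain ⟨a, -, ha⟩ := Finset.mem_image.mp h'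
          have ha0 : a ≠ 0 := by
            rintro rfl
            rw [hx0] at ha
            exact hx (ha ▸ h)
          exact ⟨a, by rw [if_neg ha0, ha]⟩
    rw [← hSi]
    obtain ⟨w, hw1, hw2⟩ := h3 (l ∘ e)
    refine pos_of_enum _ _ ?_ w hw1 fun b => ?_
    · intro a b hab
      dsimp only at hab
      by_cases ha : a = 0 <;> by_cases hb : b = 0
      · rw [ha, hb]
      · rw [if_pos ha, if_neg hb] at hab
        exact absurd hab.symm (hnξ b)
      · rw [if_neg ha, if_pos hb] at hab
        exact absurd hab (hnξ a)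
      · rw [if_neg ha, if_neg hb] at hab
        exact he0 hab
    · rw [← hw2 b]
      refine Finset.sum_congr rfl fun a _ => ?_
      congr 1
      have e4 : ((0 : Fin (2 * m + 3)).val) = 0 := rfl
      by_cases ha : a = 0 <;> by_cases hb : b = 0
      · subst ha
        subst hb
        rw [if_pos rfl]
        unfold DM
        rw [if_neg (by simp [hne.symm]), if_pos ⟨rfl, rfl⟩]
        unfold MXi MX hl tx
        simp [altN]
      · subst ha
        rw [if_pos rfl, if_neg hb]
        unfold DM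
        rw [if_neg (by simp [hne.symm, hnx b hb]), if_neg (by simp [hnξ b]), if_neg (hnξ b),
          if_pos rfl]
        have e1 : B ξ (e b) = altS (2 * m + 3) 0 b := by
          rw [hB.skew (e b) ξ, hT.2 (e b) (hnx b hb) (hnξ b), ← hB.skew (e b) x, ← heB 0 b, hx0]
        rw [e1, altS_eq]
        have hbv : b.val ≠ 0 := fun h => hb (Fin.ext h)
        unfold MXi MX hl tx
        rw [if_pos (Or.inl rfl), if_neg hbv, if_pos e4]
        ring
      · subst hb
        rw [if_neg ha, if_pos rfl]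
        unfold DM
        rw [if_neg (by simp [hne.symm, hnx a ha]), if_neg (by simp [hnξ a]), if_pos rfl]
        have e1 : B (e a) ξ = altS (2 * m + 3) a 0 := by
          rw [hT.2 (e a) (hnx a ha) (hnξ a), ← heB a 0, hx0]
        rw [e1, altS_eq]
        have hav : a.val ≠ 0 := fun h => ha (Fin.ext h)
        unfold MXi MX hl tx
        rw [if_pos (Or.inr rfl), if_neg hav, if_pos e4]
        ring
      · rw [if_neg ha, if_neg hb, hin a b ha hb]
        have hav : a.val ≠ 0 := fun h => ha (Fin.ext h)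
        have hbv : b.val ≠ 0 := fun h => hb (Fin.ext h)
        unfold MXi tx
        rw [if_neg hav, if_neg hbv]
        ring

end H51.Car
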